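import Pool.Agent.H315R2.EB.Stubs

/-! Task ACT (helper418): the linear group acts on the lattice complex. -/

namespace Pool.Agent.H315R2.EB

open Module
open scoped Pointwise

namespace ACTaux

variable {O K V : Type} [CommRing O] [Field K] [Algebra O K]
  [AddCommGroup V] [Module K V] [Module O V] [IsScalarTower O K V]

/-- restriction of scalars -/
abbrev rs (g : V ≃ₗ[K] V) : V →ₗ[O] V := ((g.restrictScalars O : V ≃ₗ[O] V) : V →ₗ[O] V)

theorem mem_map_rs (g : V ≃ₗ[K] V) (L : Submodule O V) (x : V) :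
    x ∈ L.map (rs (O := O) g) ↔ ∃ y ∈ L, g y = x := Iff.rfl

theorem lat_map (g : V ≃ₗ[K] V) {L : Submodule O V} (hL : Submodule.IsLattice K L) :
    Submodule.IsLattice K (L.map (rs (O := O) g)) := by
  refine ⟨hL.fg.map _, ?_⟩
  have h1 : ((L.map (rs (O := O) g) : Submodule O V) : Set V) =
      (g : V →ₗ[K] V) '' (L : Set V) := rfl
  rw [h1, Submodule.span_image, hL.span_eq_top, Submodule.map_top, LinearEquiv.range]

/-- action on lattices -/
def aL (g : V ≃ₗ[K] V) (L : Lat O K V) : Lat O K V := ⟨L.1.map (rs (O := O) g), lat_map g L.2⟩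

theorem aL_one (L : Lat O K V) : aL (1 : V ≃ₗ[K] V) L = L := by
  apply Subtype.ext
  ext x
  change x ∈ L.1.map (rs (O := O) (1 : V ≃ₗ[K] V)) ↔ _
  rw [mem_map_rs]
  simp

theorem aL_mul (g h : V ≃ₗ[K] V) (L : Lat O K V) : aL (g * h) L = aL g (aL h L) := by
  apply Subtype.ext
  ext x
  change x ∈ L.1.map (rs (O := O) (g * h)) ↔ x ∈ (L.1.map (rs (O := O) h)).map (rs (O := O) g)
  rw [mem_map_rs, mem_map_rs]
  constructor
  · rintro ⟨y, hy, rfl⟩
    exact ⟨h y, ⟨y, hy, rfl⟩, rfl⟩
  · rintro ⟨_, ⟨y, hy, rfl⟩, rfl⟩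
    exact ⟨y, hy, rfl⟩

theorem aL_hom (g : V ≃ₗ[K] V) {L L' : Lat O K V} (h : (homothety O K V) L L') :
    (homothety O K V) (aL g L) (aL g L') := by
  obtain ⟨c, hc⟩ := h
  refine ⟨c, ?_⟩
  change L'.1.map (rs (O := O) g) = c • L.1.map (rs (O := O) g)
  rw [hc]
  have key : ∀ (M : Submodule O V) (x : V), x ∈ c • M ↔ ∃ y ∈ M, (c : K) • y = x :=
    fun M x => Iff.rfl
  ext x
  rw [mem_map_rs, key]
  constructor
  · rintro ⟨y, hy, rfl⟩
    rw [key] at hy
    obtain ⟨z, hz, rfl⟩ := hy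
    exact ⟨g z, ⟨z, hz, rfl⟩, (map_smul g _ _).symm⟩
  · rintro ⟨_, ⟨z, hz, rfl⟩, rfl⟩
    exact ⟨(c : K) • z, (key _ _).2 ⟨z, hz, rfl⟩, map_smul g _ _⟩

/-- action on vertices -/
def aV (g : V ≃ₗ[K] V) (x : Vert O K V) : Vert O K V :=
  Quotient.map (aL g) (fun _ _ h => aL_hom g h) x

theorem aV_cls (g : V ≃ₗ[K] V) (L : Lat O K V) : aV g (cls L) = cls (aL g L) := rfl

/-- the action -/
@[instance_reducible]
def act (O K V : Type) [CommRing O] [Field K] [Algebra O K]
    [AddCommGroup V] [Module K V] [Module O V] [IsScalarTower O K V] :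
    MulAction (V ≃ₗ[K] V) (Vert O K V) where
  smul := aV
  one_smul x := by
    induction x using Quotient.inductionOn with
    | _ L => exact congrArg cls (aL_one L)
  mul_smul g h x := by
    induction x using Quotient.inductionOn with
    | _ L => exact congrArg cls (aL_mul g h L)

/-- the permutation representation -/
def TP (O K V : Type) [CommRing O] [Field K] [Algebra O K]
    [AddCommGroup V] [Module K V] [Module O V] [IsScalarTower O K V] :
    (V ≃ₗ[K] V) →* Equiv.Perm (Vert O K V) :=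
  letI := act O K V
  MulAction.toPermHom (V ≃ₗ[K] V) (Vert O K V)

theorem TP_apply (g : V ≃ₗ[K] V) (x : Vert O K V) : TP O K V g x = aV g x := rfl

theorem TP_face (g : V ≃ₗ[K] V) {s : Finset (Vert O K V)} (hs : s ∈ (bt O K V).faces) :
    s.map (TP O K V g).toEmbedding ∈ (bt O K V).faces := by
  obtain ⟨h1, h2⟩ := hs
  refine ⟨Finset.map_nonempty.2 h1, fun L L' hL hL' => ?_⟩
  have key : ∀ L : Lat O K V, cls L ∈ s.map (TP O K V g).toEmbedding → cls (aL g⁻¹ L) ∈ s := by
    intro L hL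
    rw [Finset.mem_map] at hL
    obtain ⟨x, hx, hxL⟩ := hL
    have h3 : x = cls (aL g⁻¹ L) := by
      have h4 : TP O K V g x = cls L := hxL
      rw [← aV_cls, ← TP_apply, ← h4, map_inv]
      simp
    rwa [← h3]
  have e : ∀ L : Lat O K V, L.1 = (aL g⁻¹ L).1.map (rs (O := O) g) := by
    intro L
    have h5 : aL g (aL g⁻¹ L) = L := by rw [← aL_mul, mul_inv_cancel, aL_one]
    conv_lhs => rw [← h5]
    rfl
  rcases h2 _ _ (key L hL) (key L' hL') with h | h
  · left
    rw [e L, e L']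
    exact Submodule.map_mono h
  · right
    rw [e L, e L']
    exact Submodule.map_mono h

theorem TP_mem (g : V ≃ₗ[K] V) : TP O K V g ∈ autGroup (bt O K V) := by
  intro s
  constructor
  · intro h
    have h1 := TP_face g⁻¹ h
    rw [Finset.map_map] at h1
    have h2 : (TP O K V g).toEmbedding.trans (TP O K V g⁻¹).toEmbedding =
        Function.Embedding.refl _ := by
      ext x
      rw [map_inv]
      simp
    rwa [h2, Finset.map_refl] at h1
  · exact TP_face g

end ACTaux

open ACTaux in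
theorem ACT_proof : St_ACT := by
  intro O K V _ _ _ _ _ _ _
  refine ⟨(TP O K V).codRestrict _ TP_mem, fun g L L' h => ?_⟩
  change aV g (cls L) = cls L'
  rw [aV_cls]
  congr 1
  exact Subtype.ext h.symm

end Pool.Agent.H315R2.EB
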